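import Pool.Agent.Lib.MP_2d002d_gt.PM.Interfaces

/-!
# MP_2d002d_gt, project PM: the frozen statement from QC
-/

set_option autoImplicit false

open MeasureTheory Set Filter Topology
open scoped ENNReal Pointwise

namespace Pool.Agent.Lib.MP_2d002d_gt.PM.H29

open Pool.Agent.Lib.MP_2d002d_gt.H29

lemma HD_of_QC (hQC : QC_S) {n : ℕ} {f : Fin n → ℝ → ℝ} (hf : ∀ i, ELC (f i)) :
    HD (mu f) n := by
  intro A₀ A₁ h₀ h₁ t ht0 ht1
  have ht1' : 0 < 1 - t := by linarith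
  have key := hQC n f hf _ _ (h₀.smul ht0) (h₁.smul ht1') t (1 - t) ht0 ht1'
  have hS : Body (t • A₀ + (1 - t) • A₁) := (h₀.smul ht0).add (h₁.smul ht1')
  have e1 : (t + (1 - t)) / 2 = 1 / 2 := by ring
  rw [e1, MK_smul hf ht0 h₀.isOpen.measurableSet, MK_smul hf ht1' h₁.isOpen.measurableSet,
    MK_smul hf (by norm_num : (0 : ℝ) < 1 / 2) hS.isOpen.measurableSet] at key
  set X := mu f A₀
  set Y := mu f A₁
  set Z := mu f (t • A₀ + (1 - t) • A₁)
  have e2 : ENNReal.ofReal ((4 * t * (1 - t)) ^ n) * (X * Y) =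
      ENNReal.ofReal (4 ^ n) * (ENNReal.ofReal (t ^ n) * X * (ENNReal.ofReal ((1 - t) ^ n) * Y)) := by
    have : ENNReal.ofReal ((4 * t * (1 - t)) ^ n) =
        ENNReal.ofReal (4 ^ n) * (ENNReal.ofReal (t ^ n) * ENNReal.ofReal ((1 - t) ^ n)) := by
      rw [← ENNReal.ofReal_mul (by positivity), ← ENNReal.ofReal_mul (by positivity)]
      congr 1
      rw [mul_pow, mul_pow]; ring
    rw [this]; ring
  rw [e2]
  refine (mul_le_mul' le_rfl key).trans (le_of_eq ?_)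
  have e3 : ENNReal.ofReal (4 ^ n) * (ENNReal.ofReal ((1 / 2) ^ n) * Z) ^ 2 =
      ENNReal.ofReal (4 ^ n * ((1 / 2) ^ n) ^ 2) * Z ^ 2 := by
    rw [ENNReal.ofReal_mul (by positivity), ENNReal.ofReal_pow (p := (1 / 2) ^ n) (by positivity)]
    ring
  have e4 : (4 : ℝ) ^ n * ((1 / 2) ^ n) ^ 2 = 1 := by
    rw [← pow_mul, mul_comm n 2, pow_mul, ← mul_pow]; norm_num
  rw [e3, e4]
  simp

/-- The frozen statement from the midpoint inequality. -/
theorem final (hQC : QC_S) : FINAL_S := by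
  intro n hn f hf0 hfe hfl μ hμ A B hA hB hAn hBn hAs hBs t ht0 ht1
  have hf : ∀ i, ELC (f i) := fun i => ⟨hf0 i, hfe i, hfl i⟩
  have hmu : μ = mu f := hμ
  have hRM : RM (mu f) n := by
    have := RM_mu hf (c := 1) le_rfl
    rwa [mul_one] at this
  rw [hmu]
  exact bm_general (withDensity_absolutelyContinuous _ _) hn (fin_mu hf) hRM
    (HD_of_QC hQC hf) hA hB hAn hBn hAs hBs ht0 ht1

end Pool.Agent.Lib.MP_2d002d_gt.PM.H29
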