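import Pool.Agent.Lib.MP_2d002d_gt.PM.Interfaces
import Pool.Agent.Lib.MP_2d002d_gt.PM.H98.Comp

/-!
# MP_2d002d_gt, project PM: module TC2
-/

set_option autoImplicit false

open MeasureTheory Set Filter Topology
open scoped ENNReal

namespace Pool.Agent.Lib.MP_2d002d_gt.PM.H29

open Pool.Agent.Lib.MP_2d002d_gt.PM Pool.Agent.Lib.MP_2d002d_gt.PM.H98

section general

variable {E V : Type*} [NormedAddCommGroup E] [NormedSpace ℝ E] [FiniteDimensional ℝ E]
  [NormedAddCommGroup V] [NormedSpace ℝ V]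

/-- a uniform bound near a point -/
lemma exists_bound {Ω : Set E} (hΩ : IsOpen Ω) {F : E × ℝ → V}
    (hF : ContinuousOn F (Ω ×ˢ Ioi 0)) {p : E} (hp : p ∈ Ω) {a b : ℝ} (ha : 0 < a) :
    ∃ ε > 0, Metric.closedBall p ε ⊆ Ω ∧ ∃ M, ∀ x ∈ Metric.closedBall p ε, ∀ t ∈ Icc a b,
      ‖F (x, t)‖ ≤ M := by
  obtain ⟨ε, hε, hsub⟩ := Metric.nhds_basis_closedBall.mem_iff.1 (hΩ.mem_nhds hp)
  have hprop : ProperSpace E := FiniteDimensional.proper ℝ E
  refine ⟨ε, hε, hsub, ?_⟩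
  obtain ⟨M, hM⟩ := ((isCompact_closedBall p ε).prod (isCompact_Icc (a := a) (b := b))
    ).exists_bound_of_continuousOn (f := F) (hF.mono (prod_mono hsub fun t ht => ha.trans_le ht.1))
  exact ⟨M, fun x hx t ht => hM (x, t) (mk_mem_prod hx ht)⟩

/-- the weighted integral -/
noncomputable def IS (S : ℝ → ℝ) (F : E × ℝ → V) (p : E) : V :=
  ∫ z in Ioi (0 : ℝ), Real.exp (-z) • F (p, S z)

lemma integrable_exp_mul (M : ℝ) : Integrable (fun z => Real.exp (-z) * M)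
    (volume.restrict (Ioi (0 : ℝ))) := by
  have h := integrableOn_exp_neg_Ioi 0
  exact h.mul_const M

lemma aesm {Ω : Set E} {F : E × ℝ → V} (hF : ContinuousOn F (Ω ×ˢ Ioi 0)) {S : ℝ → ℝ}
    (hS : Continuous S) {a : ℝ} (ha : 0 < a) (hSa : ∀ z, 0 ≤ z → a ≤ S z) {x : E} (hx : x ∈ Ω) :
    AEStronglyMeasurable (fun z => Real.exp (-z) • F (x, S z)) (volume.restrict (Ioi (0 : ℝ))) := by
  have hc : ContinuousOn (fun z => Real.exp (-z) • F (x, S z)) (Ioi (0 : ℝ)) := by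
    refine ContinuousOn.smul (by fun_prop) ?_
    refine hF.comp (f := fun z => (x, S z)) (by fun_prop) ?_
    intro z hz
    exact mk_mem_prod hx (ha.trans_le (hSa z (le_of_lt hz)))
  exact hc.aestronglyMeasurable measurableSet_Ioi

lemma integrable_IS {Ω : Set E} (hΩ : IsOpen Ω) {F : E × ℝ → V}
    (hF : ContinuousOn F (Ω ×ˢ Ioi 0)) {S : ℝ → ℝ} (hS : Continuous S) {a b : ℝ} (ha : 0 < a)
    (hSa : ∀ z, 0 ≤ z → a ≤ S z) (hSb : ∀ z, 0 ≤ z → S z ≤ b) {x : E} (hx : x ∈ Ω) :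
    Integrable (fun z => Real.exp (-z) • F (x, S z)) (volume.restrict (Ioi (0 : ℝ))) := by
  obtain ⟨ε, hε, hsub, M, hM⟩ := exists_bound hΩ hF hx (a := a) (b := b) ha
  refine (integrable_exp_mul M).mono' (aesm hF hS ha hSa hx) ?_
  refine (ae_restrict_mem measurableSet_Ioi).mono fun z hz => ?_
  rw [norm_smul, Real.norm_eq_abs, abs_of_pos (Real.exp_pos _)]
  exact mul_le_mul_of_nonneg_left
    (hM x (Metric.mem_closedBall_self hε.le) _ ⟨hSa z (le_of_lt hz), hSb z (le_of_lt hz)⟩)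
    (Real.exp_pos _).le

lemma continuousOn_IS {Ω : Set E} (hΩ : IsOpen Ω) {F : E × ℝ → V}
    (hF : ContinuousOn F (Ω ×ˢ Ioi 0)) {S : ℝ → ℝ} (hS : Continuous S) {a b : ℝ} (ha : 0 < a)
    (hSa : ∀ z, 0 ≤ z → a ≤ S z) (hSb : ∀ z, 0 ≤ z → S z ≤ b) :
    ContinuousOn (IS S F) Ω := by
  intro p hp
  refine ContinuousAt.continuousWithinAt ?_
  obtain ⟨ε, hε, hsub, M, hM⟩ := exists_bound hΩ hF hp (a := a) (b := b) ha
  unfold IS
  refine continuousAt_of_dominated (bound := fun z => Real.exp (-z) * M) ?_ ?_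
    (integrable_exp_mul M) ?_
  · filter_upwards [hΩ.mem_nhds hp] with x hx
    exact aesm hF hS ha hSa hx
  · filter_upwards [Metric.closedBall_mem_nhds p hε] with x hx
    refine (ae_restrict_mem measurableSet_Ioi).mono fun z hz => ?_
    rw [norm_smul, Real.norm_eq_abs, abs_of_pos (Real.exp_pos _)]
    exact mul_le_mul_of_nonneg_left
      (hM x hx _ ⟨hSa z (le_of_lt hz), hSb z (le_of_lt hz)⟩) (Real.exp_pos _).le
  · refine (ae_restrict_mem measurableSet_Ioi).mono fun z hz => ?_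
    have h0 : 0 < S z := ha.trans_le (hSa z (le_of_lt hz))
    have h1 : ContinuousAt F (p, S z) :=
      hF.continuousAt ((hΩ.prod isOpen_Ioi).mem_nhds (mk_mem_prod hp h0))
    exact (ContinuousAt.comp (f := fun x => (x, S z)) h1 (by fun_prop)).const_smul _

lemma hasFDerivAt_IS {Ω : Set E} (hΩ : IsOpen Ω) {F : E × ℝ → V} {F' : E × ℝ → E →L[ℝ] V}
    (hF : ContinuousOn F (Ω ×ˢ Ioi 0)) (hF' : ContinuousOn F' (Ω ×ˢ Ioi 0))
    (hd : ∀ x ∈ Ω, ∀ t : ℝ, 0 < t → HasFDerivAt (fun x => F (x, t)) (F' (x, t)) x)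
    {S : ℝ → ℝ} (hS : Continuous S) {a b : ℝ} (ha : 0 < a)
    (hSa : ∀ z, 0 ≤ z → a ≤ S z) (hSb : ∀ z, 0 ≤ z → S z ≤ b) {p : E} (hp : p ∈ Ω) :
    HasFDerivAt (IS S F) (IS S F' p) p := by
  obtain ⟨ε, hε, hsub, M, hM⟩ := exists_bound hΩ hF' hp (a := a) (b := b) ha
  unfold IS
  refine hasFDerivAt_integral_of_dominated_of_fderiv_le (𝕜 := ℝ)
    (F := fun x z => Real.exp (-z) • F (x, S z))
    (F' := fun x z => Real.exp (-z) • F' (x, S z)) (s := Metric.closedBall p ε)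
    (bound := fun z => Real.exp (-z) * M) (Metric.closedBall_mem_nhds p hε) ?_ ?_ ?_ ?_ ?_ ?_
  · filter_upwards [hΩ.mem_nhds hp] with x hx
    exact aesm hF hS ha hSa hx
  · exact integrable_IS hΩ hF hS ha hSa hSb hp
  · exact aesm hF' hS ha hSa hp
  · refine (ae_restrict_mem measurableSet_Ioi).mono fun z hz x hx => ?_
    rw [norm_smul, Real.norm_eq_abs, abs_of_pos (Real.exp_pos _)]
    exact mul_le_mul_of_nonneg_left
      (hM x hx _ ⟨hSa z (le_of_lt hz), hSb z (le_of_lt hz)⟩) (Real.exp_pos _).le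
  · exact integrable_exp_mul M
  · refine (ae_restrict_mem measurableSet_Ioi).mono fun z hz x hx => ?_
    exact (hd x (hsub hx) (S z) (ha.trans_le (hSa z (le_of_lt hz)))).const_smul (Real.exp (-z))

end general

section lin

variable {n : ℕ}

/-- the linear part `v ↦ (v.1, update v.2 i (β v.1 t))` -/
noncomputable def Lt (n : ℕ) (β : ℝ) (i : Fin n) (t : ℝ) :
    (ℝ × (Fin n → ℝ)) →L[ℝ] (ℝ × (Fin n → ℝ)) :=
  (ContinuousLinearMap.fst ℝ ℝ (Fin n → ℝ)).prod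
    (ContinuousLinearMap.pi fun l =>
      if l = i then (β * t) • (ContinuousLinearMap.fst ℝ ℝ (Fin n → ℝ))
      else (ContinuousLinearMap.proj l).comp (ContinuousLinearMap.snd ℝ ℝ (Fin n → ℝ)))

lemma Lt_apply (β : ℝ) (i : Fin n) (t : ℝ) (v : ℝ × (Fin n → ℝ)) :
    Lt n β i t v = (v.1, Function.update v.2 i (β * v.1 * t)) := by
  unfold Lt
  refine Prod.ext rfl ?_
  funext l
  by_cases h : l = i
  · subst h
    simp
    ring
  · simp [h]

lemma Lt_eq (β : ℝ) (i : Fin n) (t : ℝ) : Lt n β i t = Lt n β i 0 + t • (Lt n β i 1 - Lt n β i 0) := by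
  refine ContinuousLinearMap.ext fun v => ?_
  rw [ContinuousLinearMap.add_apply, ContinuousLinearMap.smul_apply,
    ContinuousLinearMap.sub_apply, Lt_apply, Lt_apply, Lt_apply]
  refine Prod.ext (by simp) ?_
  funext l
  by_cases h : l = i
  · subst h
    simp
    ring
  · simp [h]

lemma continuous_Lt (β : ℝ) (i : Fin n) : Continuous (Lt n β i) := by
  have : Lt n β i = fun t => Lt n β i 0 + t • (Lt n β i 1 - Lt n β i 0) := funext (Lt_eq β i)
  rw [this]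
  fun_prop

lemma hasFDerivAt_qt (α β : ℝ) (i : Fin n) (t : ℝ) (x : ℝ × (Fin n → ℝ)) :
    HasFDerivAt (fun p => qt α β i p t) (Lt n β i t) x := by
  have h : (fun p : ℝ × (Fin n → ℝ) => qt α β i p t) =
      fun p => Lt n β i t p + ((0 : ℝ), (Pi.single i (α * t) : Fin n → ℝ)) := by
    funext p
    rw [Lt_apply]
    unfold qt
    refine Prod.ext (by simp) ?_
    funext l
    by_cases h : l = i
    · subst h
      simp
      ring
    · simp [h]
  rw [h]
  exact (Lt n β i t).hasFDerivAt.add_const _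

lemma continuous_qt2 (α β : ℝ) (i : Fin n) :
    Continuous (fun q : (ℝ × (Fin n → ℝ)) × ℝ => qt α β i q.1 q.2) := by
  unfold qt
  exact (continuous_fst.comp continuous_fst).prodMk
    ((continuous_snd.comp continuous_fst).update i (by fun_prop))

end lin

/-- module TC2 -/
theorem tc2 : TC2_S := by
  intro n α β S i H hS hH
  have hO := isOpen_Om n α β
  obtain ⟨C, hC⟩ := hS.bdd
  have hSc : Continuous S := hS.smooth.continuous
  have ha : 0 < S 0 := hS.pos 0 le_rfl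
  have hSa : ∀ z, 0 ≤ z → S 0 ≤ S z := fun z hz => prof_mono hS (mem_Ici.mpr le_rfl) hz hz
  have hSb : ∀ z, 0 ≤ z → S z ≤ C := fun z hz => (le_abs_self _).trans (hC z hz).1
  set Ω := Om n α β with hΩ
  -- the functions of `(p, t)`
  set F0 : (ℝ × (Fin n → ℝ)) × ℝ → ℝ := fun q => H (qt α β i q.1 q.2) with hF0
  set F1 : (ℝ × (Fin n → ℝ)) × ℝ → ((ℝ × (Fin n → ℝ)) →L[ℝ] ℝ) := fun q =>
    (fderiv ℝ H (qt α β i q.1 q.2)).comp (Lt n β i q.2) with hF1
  set F2 : (ℝ × (Fin n → ℝ)) × ℝ → ((ℝ × (Fin n → ℝ)) →L[ℝ] ((ℝ × (Fin n → ℝ)) →L[ℝ] ℝ)) :=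
    fun q => ((ContinuousLinearMap.compL ℝ (ℝ × (Fin n → ℝ)) (ℝ × (Fin n → ℝ)) ℝ).flip
      (Lt n β i q.2)).comp ((fderiv ℝ (fderiv ℝ H) (qt α β i q.1 q.2)).comp (Lt n β i q.2))
    with hF2
  have hH1 : ContDiffOn ℝ 1 (fderiv ℝ H) Ω := hH.fderiv_of_isOpen hO (by norm_num)
  have hmaps : ∀ q ∈ Ω ×ˢ Ioi (0 : ℝ), qt α β i q.1 q.2 ∈ Ω := fun q hq => qt_mem hq.1 hq.2
  have hcq : ContinuousOn (fun q : (ℝ × (Fin n → ℝ)) × ℝ => qt α β i q.1 q.2)
      (Ω ×ˢ Ioi (0 : ℝ)) := (continuous_qt2 α β i).continuousOn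
  have hcL : Continuous (fun q : (ℝ × (Fin n → ℝ)) × ℝ => Lt n β i q.2) :=
    (continuous_Lt β i).comp continuous_snd
  have hc0 : ContinuousOn F0 (Ω ×ˢ Ioi (0 : ℝ)) := hH.continuousOn.comp hcq hmaps
  have hc1 : ContinuousOn F1 (Ω ×ˢ Ioi (0 : ℝ)) :=
    (hH1.continuousOn.comp hcq hmaps).clm_comp hcL.continuousOn
  have hc2' : ContinuousOn (fderiv ℝ (fderiv ℝ H)) Ω :=
    hH1.continuousOn_fderiv_of_isOpen hO le_rfl
  have hc2 : ContinuousOn F2 (Ω ×ˢ Ioi (0 : ℝ)) := by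
    refine ContinuousOn.clm_comp ?_ ((hc2'.comp hcq hmaps).clm_comp hcL.continuousOn)
    exact (((ContinuousLinearMap.compL ℝ (ℝ × (Fin n → ℝ)) (ℝ × (Fin n → ℝ)) ℝ).flip).continuous.comp
      hcL).continuousOn
  have hd0 : ∀ x ∈ Ω, ∀ t : ℝ, 0 < t → HasFDerivAt (fun x => F0 (x, t)) (F1 (x, t)) x := by
    intro x hx t ht
    have h1 : HasFDerivAt H (fderiv ℝ H (qt α β i x t)) (qt α β i x t) :=
      ((hH.contDiffAt (hO.mem_nhds (qt_mem hx ht))).differentiableAt (by norm_num)).hasFDerivAt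
    exact h1.comp x (hasFDerivAt_qt α β i t x)
  have hd1 : ∀ x ∈ Ω, ∀ t : ℝ, 0 < t → HasFDerivAt (fun x => F1 (x, t)) (F2 (x, t)) x := by
    intro x hx t ht
    have h1 : HasFDerivAt (fderiv ℝ H) (fderiv ℝ (fderiv ℝ H) (qt α β i x t)) (qt α β i x t) :=
      ((hH1.contDiffAt (hO.mem_nhds (qt_mem hx ht))).differentiableAt (by norm_num)).hasFDerivAt
    have h2 := h1.comp x (hasFDerivAt_qt α β i t x)
    exact ((ContinuousLinearMap.compL ℝ (ℝ × (Fin n → ℝ)) (ℝ × (Fin n → ℝ)) ℝ).flip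
      (Lt n β i t)).hasFDerivAt.comp x h2
  have hTT : TT α β S i H = IS S F0 := by
    funext p
    unfold TT IS
    refine integral_congr_ae (Eventually.of_forall fun z => ?_)
    simp only [smul_eq_mul, hF0, pt, qt]
    ring
  have hD0 : ∀ p ∈ Ω, HasFDerivAt (IS S F0) (IS S F1 p) p := fun p hp =>
    hasFDerivAt_IS hO hc0 hc1 hd0 hSc ha hSa hSb hp
  have hD1 : ∀ p ∈ Ω, HasFDerivAt (IS S F1) (IS S F2 p) p := fun p hp =>
    hasFDerivAt_IS hO hc1 hc2 hd1 hSc ha hSa hSb hp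
  have hf0 : ∀ p ∈ Ω, fderiv ℝ (IS S F0) p = IS S F1 p := fun p hp => (hD0 p hp).fderiv
  have hf1 : ∀ p ∈ Ω, HasFDerivAt (fderiv ℝ (IS S F0)) (IS S F2 p) p := by
    intro p hp
    refine (hD1 p hp).congr_of_eventuallyEq ?_
    filter_upwards [hO.mem_nhds hp] with x hx
    exact hf0 x hx
  have hcd : ContDiffOn ℝ 2 (IS S F0) Ω := by
    have h2 : (2 : WithTop ℕ∞) = 1 + 1 := by norm_num
    rw [h2, contDiffOn_succ_iff_fderiv_of_isOpen hO]
    refine ⟨fun p hp => (hD0 p hp).differentiableAt.differentiableWithinAt, by simp, ?_⟩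
    have h1 : (1 : WithTop ℕ∞) = 0 + 1 := by norm_num
    rw [h1, contDiffOn_succ_iff_fderiv_of_isOpen hO]
    refine ⟨fun p hp => (hf1 p hp).differentiableAt.differentiableWithinAt, by simp, ?_⟩
    rw [contDiffOn_zero]
    refine (continuousOn_IS (V := (ℝ × (Fin n → ℝ)) →L[ℝ] ((ℝ × (Fin n → ℝ)) →L[ℝ] ℝ)) hO hc2
      hSc ha hSa hSb).congr fun p hp => (hf1 p hp).fderiv
  rw [hTT]
  refine ⟨hcd, fun p hp => ⟨fun v => ?_, fun v w => ?_⟩⟩
  · rw [hf0 p hp]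
    have hi := integrable_IS hO hc1 hSc ha hSa hSb hp
    unfold IS
    rw [ContinuousLinearMap.integral_apply hi]
    refine integral_congr_ae (Eventually.of_forall fun z => ?_)
    simp only [ContinuousLinearMap.smul_apply, smul_eq_mul, hF1, ContinuousLinearMap.comp_apply,
      Lt_apply]
    rw [mul_comm]
    rfl
  · rw [(hf1 p hp).fderiv]
    have hi := integrable_IS (V := (ℝ × (Fin n → ℝ)) →L[ℝ] ((ℝ × (Fin n → ℝ)) →L[ℝ] ℝ)) hO hc2
      hSc ha hSa hSb hp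
    unfold IS
    rw [ContinuousLinearMap.integral_apply hi]
    have hi2 : Integrable (fun z => (Real.exp (-z) • F2 (p, S z)) v)
        (volume.restrict (Ioi (0 : ℝ))) := hi.apply_continuousLinearMap v
    rw [ContinuousLinearMap.integral_apply hi2]
    refine integral_congr_ae (Eventually.of_forall fun z => ?_)
    simp only [ContinuousLinearMap.smul_apply, smul_eq_mul, hF2, ContinuousLinearMap.comp_apply,
      ContinuousLinearMap.flip_apply, ContinuousLinearMap.compL_apply, Lt_apply]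
    rw [mul_comm]
    rfl

end Pool.Agent.Lib.MP_2d002d_gt.PM.H29
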